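import Pool.Agent.H24.Tip4

namespace Pool.Agent.Results.MP_037b14_pr.No

open Pool.Agent.H24.Tip

theorem result : ∃ (V : Type) (G : SimpleGraph V) (_ : G.LocallyFinite) (c r tc tr : ℝ) (u0 v0 : V),
    G.Connected ∧ 0 < c ∧ 0 < r ∧ 0 < tc ∧ 0 ≤ tr ∧ c + r + tc + tr = 1 ∧
    (∃ cs, CopStrat G cs ∧ ∀ u v, Winning G c r tc tr cs u v) ∧
    ¬ ∃ cs, CopStrat G cs ∧ Mono G cs ∧ Winning G c r tc tr cs u0 v0 :=
  ⟨Vx, G0, inferInstance, 3 / 10, 1 / 100, 69 / 100, 0, .H 1, .H 0, conn, by norm_num, by norm_num,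
    by norm_num, le_rfl, by norm_num, ⟨cs0, cs0_strat, cs0_win⟩,
    fun ⟨_, a, b, c⟩ => mono_fail a b c⟩

end Pool.Agent.Results.MP_037b14_pr.No
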